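import Mathlib
import Pool.Agent.H82.KingC

set_option autoImplicit false

namespace Pool.Agent.Results.MP_abcfaf_gt.KingCompact

open Set

universe u

/-- A continuous weak selection on `X`; only the values of `φ` on two-point sets matter. -/
def ContWeakSel {X : Type u} [TopologicalSpace X] (φ : Set X → X) : Prop :=
  (∀ a b : X, a ≠ b → φ {a, b} = a ∨ φ {a, b} = b) ∧
  ∀ a b : X, a ≠ b → ∀ W : Set X, IsOpen W → φ {a, b} ∈ W →
    ∃ U V : Set X, IsOpen U ∧ IsOpen V ∧ a ∈ U ∧ b ∈ V ∧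
      ∀ a' ∈ U, ∀ b' ∈ V, a' ≠ b' → φ {a', b'} ∈ W

/-- The relation `a →_φ b`. -/
def Arrow {X : Type u} (φ : Set X → X) (a b : X) : Prop := a = b ∨ (a ≠ b ∧ φ {a, b} = b)

/-- `z` is a `φ`-king. -/
def IsKing {X : Type u} (φ : Set X → X) (z : X) : Prop :=
  ∀ x : X, ∃ y : X, Arrow φ z y ∧ Arrow φ y x

/-- Every continuous real function on the subspace `S` is bounded. -/
def Pseudocompact {X : Type u} [TopologicalSpace X] (S : Set X) : Prop :=
  ∀ f : S → ℝ, Continuous f → ∃ c : ℝ, ∀ x, |f x| ≤ c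

open Pool.Agent.H82.KingA Filter Topology in
theorem result (X : Type u) [TopologicalSpace X] [T35Space X]
    (hloc : ∀ x : X, ∃ U : Set X, IsOpen U ∧ x ∈ U ∧ Pseudocompact (closure U))
    (hsel : ∃ φ : Set X → X, ContWeakSel φ)
    (hking : ∀ φ : Set X → X, ContWeakSel φ → ∃ z : X, IsKing φ z) :
    CompactSpace X := by
  classical
  by_contra hnc
  obtain ⟨φ, h1, h2⟩ := hsel
  have hT : Tour (fun a b : X => a ≠ b ∧ φ {a, b} = a) := by
    refine ⟨isOpen_prod_iff.2 fun a b hab => ?_, ?_, ?_⟩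
    · obtain ⟨A, B, a1, a2, a3, a4, a5⟩ := t2_separation hab.1
      obtain ⟨U, V, u1, u2, u3, u4, u5⟩ := h2 a b hab.1 A a1 (by rw [hab.2]; exact a3)
      refine ⟨U ∩ A, V ∩ B, u1.inter a1, u2.inter a2, ⟨u3, a3⟩, ⟨u4, a4⟩, ?_⟩
      rintro ⟨x, y⟩ ⟨hx, hy⟩
      have hne : x ≠ y := fun e => Set.disjoint_left.1 a5 hx.2 (e ▸ hy.2)
      refine ⟨hne, (h1 x y hne).resolve_right fun e => ?_⟩
      have := u5 x hx.1 y hy.1 hne
      rw [e] at this
      exact Set.disjoint_left.1 a5 this hy.2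
    · rintro a b ⟨c1, c2⟩ ⟨-, c3⟩
      rw [pair_comm] at c3
      exact c1 (c2.symm.trans c3)
    · intro a b hab
      refine (h1 a b hab).imp (fun e => ⟨hab, e⟩) fun e => ⟨hab.symm, ?_⟩
      rw [pair_comm]
      exact e
  have hfc : ∀ x : X, ∃ K ∈ 𝓝 x, FC K := fun x => by
    obtain ⟨U, a, b, c⟩ := hloc x
    exact ⟨_, mem_of_superset (a.mem_nhds b) subset_closure, fc_of_pseudo c⟩
  obtain ⟨r, hr, hk⟩ := kf_main hT (lc hT hfc) hfc hnc
  let ψ : Set X → X := fun s =>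
    if h : ∃ a ∈ s, ∀ b ∈ s, b ≠ a → r a b then h.choose else φ s
  have hψ : ∀ a b, r a b → ψ {a, b} = a := by
    intro a b hab
    have h : ∃ c ∈ ({a, b} : Set X), ∀ d ∈ ({a, b} : Set X), d ≠ c → r c d :=
      ⟨a, Or.inl rfl, fun d hd hda => by
        rcases hd with hd | hd
        · exact (hda hd).elim
        · rw [hd]; exact hab⟩
    have e : ψ {a, b} = h.choose := dif_pos h
    obtain ⟨s1, s2⟩ := h.choose_spec
    rw [e]
    by_contra hne
    have hb : h.choose = b := s1.resolve_left hne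
    have := s2 a (Or.inl rfl) fun e' => hne e'.symm
    rw [hb] at this
    exact hr.asy _ _ hab this
  have hψ' : ∀ a b, r b a → ψ {a, b} = b := fun a b hab => by
    rw [pair_comm]; exact hψ b a hab
  have harr : ∀ a b, Arrow ψ a b → b = a ∨ r b a := by
    rintro a b (e | ⟨e1, e2⟩)
    · exact Or.inl e.symm
    · refine Or.inr ((hr.tot a b e1).resolve_left fun e => e1 ?_)
      rw [← e2, hψ a b e]
  obtain ⟨z, hz⟩ := hking ψ ⟨fun a b hab => (hr.tot a b hab).imp (hψ a b) (hψ' a b),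
    fun a b hab W hW hm => by
      rcases hr.tot a b hab with e | e
      · obtain ⟨U, V, u1, u2, u3, u4, u5⟩ := hr.box e
        rw [hψ a b e] at hm
        exact ⟨U ∩ W, V, u1.inter hW, u2, ⟨u3, hm⟩, u4, fun a' ha b' hb _ => by
          rw [hψ a' b' (u5 a' ha.1 b' hb)]; exact ha.2⟩
      · obtain ⟨U, V, u1, u2, u3, u4, u5⟩ := hr.box e
        rw [hψ' a b e] at hm
        exact ⟨V, U ∩ W, u2, u1.inter hW, u4, ⟨u3, hm⟩, fun a' ha b' hb _ => by
          rw [hψ' a' b' (u5 b' hb.1 a' ha)]; exact hb.2⟩⟩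
  obtain ⟨x, hx⟩ := hk z
  obtain ⟨y, a, b⟩ := hz x
  have c := hx y (harr z y a)
  rcases harr y x b with e | e
  · exact hr.irr y (by rw [e] at c; exact c)
  · exact hr.asy _ _ e c

end Pool.Agent.Results.MP_abcfaf_gt.KingCompact
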